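import Pool.Agent.W951.BP.Stm

/-! BP-AN1: the typical range. -/

namespace Pool.Agent.W366.BP

open Finset Pool.Agent.W951.BP

theorem sq_le_two_pow (r : ℕ) (hr : 4 ≤ r) : r ^ 2 ≤ 2 ^ r := by
  induction r, hr using Nat.le_induction with
  | base => norm_num
  | succ n hn ih =>
    rw [pow_succ 2 n]
    nlinarith

theorem pr_nonneg {T v s : ℕ} (hv : 1 ≤ v) : 0 ≤ pr T v s := by
  have h : (0 : ℝ) ≤ (v : ℝ) - 1 := by
    have : (1 : ℝ) ≤ v := by exact_mod_cast hv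
    linarith
  rw [pr]
  positivity

theorem pr_sum {T v : ℕ} (hv : 1 ≤ v) : ∑ s ∈ range (T + 1), pr T v s = 1 := by
  have h0 : (0 : ℝ) < v := by exact_mod_cast hv
  have h1 := add_pow (1 : ℝ) ((v : ℝ) - 1) T
  simp only [pr]
  rw [← Finset.sum_div, div_eq_one_iff_eq (by positivity)]
  have h2 : (1 : ℝ) + ((v : ℝ) - 1) = v := by ring
  rw [h2] at h1
  rw [h1]
  refine Finset.sum_congr rfl fun s _ => ?_
  rw [one_pow, one_mul, mul_comm]

theorem t_AN1 : S_AN1 := by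
  intro k hk ε hε
  have hlog : 0 < Real.log (1 + ε) := Real.log_pos (by linarith)
  obtain ⟨r₁, hr₁⟩ := exists_nat_ge ((2 : ℝ) ^ k / Real.log (1 + ε))
  refine ⟨max r₁ 4, fun r hr T hT => ?_⟩
  have hr4 : 4 ≤ r := le_trans (le_max_right _ _) hr
  have hrr : (r₁ : ℝ) ≤ r := by exact_mod_cast le_trans (le_max_left _ _) hr
  have hr0 : (0 : ℝ) < r := by
    have : 0 < r := by omega
    exact_mod_cast this
  have hTpos : 0 < T := by
    rw [hT]
    apply Nat.div_pos _ (by positivity)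
    refine (sq_le_two_pow r hr4).trans (Nat.pow_le_pow_right (by norm_num) ?_)
    exact Nat.le_mul_of_pos_left r hk
  refine ⟨hTpos, ?_⟩
  have hT0 : (0 : ℝ) < T := by exact_mod_cast hTpos
  have hv : 1 ≤ 2 ^ r := Nat.one_le_two_pow
  have hv0 : (0 : ℝ) < (2 : ℝ) ^ r := by positivity
  have hTle : (T : ℝ) * (r : ℝ) ^ 2 ≤ 2 ^ (k * r) := by
    have : T * r ^ 2 ≤ 2 ^ (k * r) := by rw [hT]; exact Nat.div_mul_le_self _ _
    exact_mod_cast this
  have hterm : ∀ s : ℕ, ((s : ℝ) / T) ^ 2 * 2 ^ r ≤ 1 →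
      tm k r T s ≤ pr T (2 ^ r) s * (1 + ε) := by
    intro s hs
    rw [tm]
    refine mul_le_mul_of_nonneg_left ?_ (pr_nonneg hv)
    have hx0 : 0 ≤ ((s : ℝ) / T) ^ 2 := by positivity
    have hx1 : ((s : ℝ) / T) ^ 2 ≤ 1 / 2 ^ r := by
      rw [le_div_iff₀ hv0]; exact hs
    have hone : (1 : ℝ) / 2 ^ r ≤ 1 := by
      rw [div_le_one hv0]
      exact one_le_pow₀ (by norm_num)
    have hq0 : 0 ≤ qq T (2 ^ r) s := by
      rw [qq]
      have : 0 ≤ 1 - ((s : ℝ) / T) ^ 2 := by linarith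
      positivity
    have hq1 : qq T (2 ^ r) s ≤ 2 / 2 ^ r := by
      rw [qq]
      push_cast
      have h1 : (1 - ((s : ℝ) / T) ^ 2) / 2 ^ r ≤ 1 / 2 ^ r := by gcongr; linarith
      have h2 : (2 : ℝ) / 2 ^ r = 1 / 2 ^ r + 1 / 2 ^ r := by ring
      linarith
    have h3 : qq T (2 ^ r) s ^ k ≤ 2 ^ k / 2 ^ (k * r) := by
      calc qq T (2 ^ r) s ^ k ≤ (2 / 2 ^ r) ^ k := pow_le_pow_left₀ hq0 hq1 k
        _ = 2 ^ k / 2 ^ (k * r) := by rw [div_pow, ← pow_mul, mul_comm r k]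
    have h4 : (1 + qq T (2 ^ r) s ^ k) ^ (r * T) ≤
        Real.exp (qq T (2 ^ r) s ^ k * (r * T : ℕ)) := by
      rw [mul_comm (qq T (2 ^ r) s ^ k), Real.exp_nat_mul]
      apply pow_le_pow_left₀ (by positivity)
      rw [add_comm]
      exact Real.add_one_le_exp _
    have h5 : qq T (2 ^ r) s ^ k * (r * T : ℕ) ≤ Real.log (1 + ε) := by
      have h6 : qq T (2 ^ r) s ^ k * (r * T : ℕ) ≤ 2 ^ k / 2 ^ (k * r) * (r * T : ℕ) :=
        mul_le_mul_of_nonneg_right h3 (Nat.cast_nonneg _)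
      have h7 : (2 : ℝ) ^ k / 2 ^ (k * r) * (r * T : ℕ) ≤ 2 ^ k / r := by
        rw [div_mul_eq_mul_div, div_le_div_iff₀ (by positivity) hr0]
        push_cast
        calc (2 : ℝ) ^ k * (r * T) * r = 2 ^ k * (T * r ^ 2) := by ring
          _ ≤ 2 ^ k * 2 ^ (k * r) := mul_le_mul_of_nonneg_left hTle (by positivity)
      have h8 : (2 : ℝ) ^ k / r ≤ Real.log (1 + ε) := by
        rw [div_le_iff₀ hlog] at hr₁
        rw [div_le_iff₀ hr0]
        nlinarith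
      linarith
    calc (1 + qq T (2 ^ r) s ^ k) ^ (r * T) ≤ Real.exp (qq T (2 ^ r) s ^ k * (r * T : ℕ)) := h4
      _ ≤ Real.exp (Real.log (1 + ε)) := Real.exp_le_exp.mpr h5
      _ = 1 + ε := Real.exp_log (by linarith)
  calc ∑ s ∈ (range T).filter (fun s : ℕ => ((s : ℝ) / T) ^ 2 * 2 ^ r ≤ 1), tm k r T s
      ≤ ∑ s ∈ (range T).filter (fun s : ℕ => ((s : ℝ) / T) ^ 2 * 2 ^ r ≤ 1),
          pr T (2 ^ r) s * (1 + ε) :=
        Finset.sum_le_sum fun s hs => hterm s (Finset.mem_filter.mp hs).2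
    _ ≤ ∑ s ∈ range (T + 1), pr T (2 ^ r) s * (1 + ε) := by
        refine Finset.sum_le_sum_of_subset_of_nonneg ?_ ?_
        · intro s hs
          have := Finset.mem_range.mp (Finset.mem_filter.mp hs).1
          exact Finset.mem_range.mpr (by omega)
        · intro s _ _
          exact mul_nonneg (pr_nonneg hv) (by linarith)
    _ = 1 + ε := by rw [← Finset.sum_mul, pr_sum hv, one_mul]

end Pool.Agent.W366.BP
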